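import Mathlib
import Pool.Agent.H14.IdDefs

set_option autoImplicit false

namespace Pool.Agent.Results.MP_4c2ece_co.Unbounded

open Pool.Agent.H14.IdDefs SimpleGraph

/-- graphs that become linear forests after deleting at most one vertex -/
def Cl (V : Type) (G : SimpleGraph V) : Prop :=
  ∃ (S : Set V) (φ : V → ℕ), S.Subsingleton ∧ Set.InjOn φ Sᶜ ∧
    ∀ u v w, u ∉ S → v ∉ S → w ∉ S → G.Adj u v → ¬ (φ u < φ w ∧ φ w < φ v)

theorem side {V : Type} {G : SimpleGraph V} {S : Set V} {φ : V → ℕ} (hi : Set.InjOn φ Sᶜ)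
    (h : ∀ u v w, u ∉ S → v ∉ S → w ∉ S → G.Adj u v → ¬ (φ u < φ w ∧ φ w < φ v))
    {w : V} (hw : w ∉ S) {u v : V} (hu : u ∉ S) (hv : v ∉ S) (huw : u ≠ w) (hvw : v ≠ w)
    (e : G.Adj u v) : (φ u < φ w ↔ φ v < φ w) := by
  have h1 := h u v w hu hv hw e
  have h2 := h v u w hv hu hw e.symm
  have h3 : φ u ≠ φ w := fun e => huw (hi hu hw e)
  have h4 : φ v ≠ φ w := fun e => hvw (hi hv hw e)
  omega

theorem side_conn {V : Type} {G : SimpleGraph V} {S : Set V} {φ : V → ℕ} (hi : Set.InjOn φ Sᶜ)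
    (h : ∀ u v w, u ∉ S → v ∉ S → w ∉ S → G.Adj u v → ¬ (φ u < φ w ∧ φ w < φ v))
    {w : V} (hw : w ∉ S) {B : Set V} (hB : (G.induce B).Connected) (hBS : ∀ u ∈ B, u ∉ S)
    (hwB : w ∉ B) (u v : B) : (φ u < φ w ↔ φ v < φ w) := by
  obtain ⟨p⟩ := hB.preconnected u v
  induction p with
  | nil => exact Iff.rfl
  | @cons a b c e p ih =>
    exact (side hi h hw (hBS _ a.2) (hBS _ b.2) (fun e => hwB (e ▸ a.2)) (fun e => hwB (e ▸ b.2))
      e).trans ih

theorem closed : MinorClosed Cl := by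
  rintro W V _ _ H G ⟨B, hc, hd, ha⟩ ⟨S, φ, hS, hi, h⟩
  have ne : ∀ x, ∃ r, r ∈ B x := fun x => by
    obtain ⟨⟨r, hr⟩⟩ := (hc x).nonempty; exact ⟨r, hr⟩
  choose r hr using ne
  have key : ∀ x, x ∉ {x | ∃ s ∈ S, s ∈ B x} → ∀ u ∈ B x, u ∉ S := fun x hx u hu hs => hx ⟨u, hs, hu⟩
  refine ⟨{x | ∃ s ∈ S, s ∈ B x}, fun x => φ (r x), ?_, ?_, ?_⟩
  · rintro x ⟨s, hs, hx⟩ y ⟨t, ht, hy⟩
    by_contra hne
    exact Set.disjoint_left.1 (hd x y hne) hx (hS ht hs ▸ hy)
  · intro x hx y hy e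
    by_contra hne
    have := hi (key x hx _ (hr x)) (key y hy _ (hr y)) e
    exact Set.disjoint_left.1 (hd x y hne) (hr x) (this ▸ hr y)
  · rintro x y z hx hy hz e ⟨h1, h2⟩
    have hxz : x ≠ z := by rintro rfl; omega
    have hyz : y ≠ z := by rintro rfl; omega
    obtain ⟨u, hu, v, hv, huv⟩ := ha x y e
    have nx : r z ∉ B x := fun h' => Set.disjoint_left.1 (hd x z hxz) h' (hr z)
    have ny : r z ∉ B y := fun h' => Set.disjoint_left.1 (hd y z hyz) h' (hr z)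
    have hw := key z hz _ (hr z)
    have a1 := side_conn hi h hw (hc x) (key x hx) nx ⟨r x, hr x⟩ ⟨u, hu⟩
    have a2 := side_conn hi h hw (hc y) (key y hy) ny ⟨r y, hr y⟩ ⟨v, hv⟩
    have a3 := side hi h hw (key x hx u hu) (key y hy v hv) (fun e => nx (e ▸ hu))
      (fun e => ny (e ▸ hv)) huv
    simp only at a1 a2 h1 h2
    omega

theorem reach : ∀ (n : ℕ) (V : Type) [Finite V] (G : SimpleGraph V), Nat.card V ≤ n →
    ∃ k, Contr Cl k V G := by
  intro n
  induction n using Nat.strong_induction_on with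
  | _ n ih =>
    intro V _ G hn
    by_cases h : ∃ a b, G.Adj a b
    · obtain ⟨a, b, e⟩ := h
      have hlt : Nat.card (Quotient (pairSetoid a b)) < Nat.card V := by
        classical
        have := Fintype.ofFinite V
        have := Fintype.ofFinite (Quotient (pairSetoid a b))
        rw [Nat.card_eq_fintype_card, Nat.card_eq_fintype_card]
        refine Fintype.card_lt_of_surjective_not_injective (Quotient.mk _) Quotient.mk_surjective
          fun hi => e.ne (hi (Quotient.sound (Or.inr ⟨Or.inl rfl, Or.inr rfl⟩)))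
      obtain ⟨k, hk⟩ := ih _ (hlt.trans_le hn) _ (quot G (pairSetoid a b)) le_rfl
      exact ⟨k + 1, a, b, e, hk⟩
    · obtain ⟨m, ⟨f⟩⟩ := Finite.exists_equiv_fin V
      exact ⟨0, ∅, fun v => f v, Set.subsingleton_empty,
        fun u _ v _ e => f.injective (Fin.ext e), fun u v _ _ _ _ e => absurd ⟨u, v, e⟩ h⟩

def Star {V : Type} (G : SimpleGraph V) (P : V → Prop) (m : ℕ) : Prop :=
  ∃ (a : V) (A : Finset V), P a ∧ m + 3 ≤ A.card ∧ ∀ x ∈ A, P x ∧ G.Adj a x

def Inv {V : Type} (G : SimpleGraph V) (m : ℕ) : Prop :=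
  ∃ h : V → ℕ, (∀ u v, G.Adj u v → h u ≤ h v + 1) ∧ Star G (fun x => h x = 0) m ∧
    Star G (fun x => m + 1 ≤ h x) m

theorem star_step {V : Type} {G : SimpleGraph V} {P : V → Prop} {m : ℕ} {a b : V} (hab : a ≠ b)
    {Q : Quotient (pairSetoid a b) → Prop} (hPQ : ∀ x, P x → Q (Quotient.mk _ x))
    (h : Star G P (m + 1)) : Star (quot G (pairSetoid a b)) Q m := by
  classical
  obtain ⟨c, A, hc, hA, hx⟩ := h
  obtain ⟨d, hdc, hd⟩ : ∃ d, c ≠ d ∧ ∀ x y, x ≠ d → y ≠ d →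
      Quotient.mk (pairSetoid a b) x = Quotient.mk (pairSetoid a b) y → x = y := by
    by_cases hca : c = b
    · refine ⟨a, hca ▸ hab.symm, fun x y h1 h2 e => ?_⟩
      rcases Quotient.exact e with e | ⟨e1, e2⟩
      · exact e
      · exact (e1.resolve_left h1).trans (e2.resolve_left h2).symm
    · refine ⟨b, hca, fun x y h1 h2 e => ?_⟩
      rcases Quotient.exact e with e | ⟨e1, e2⟩
      · exact e
      · exact (e1.resolve_right h1).trans (e2.resolve_right h2).symm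
  refine ⟨Quotient.mk _ c, (A.erase d).image (Quotient.mk _), hPQ c hc, ?_, ?_⟩
  · rw [Finset.card_image_of_injOn]
    · have := Finset.pred_card_le_card_erase (s := A) (a := d); omega
    · intro x hx' y hy' e
      exact hd x y (Finset.mem_erase.1 (Finset.mem_coe.1 hx')).1
        (Finset.mem_erase.1 (Finset.mem_coe.1 hy')).1 e
  · intro y hy
    obtain ⟨x, hx', rfl⟩ := Finset.mem_image.1 hy
    have h1 := Finset.mem_erase.1 hx'
    exact ⟨hPQ x (hx x h1.2).1, fun e => (hx x h1.2).2.ne (hd c x hdc h1.1 e), c, x, rfl, rfl,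
      (hx x h1.2).2⟩

theorem inv_step {V : Type} {G : SimpleGraph V} {m : ℕ} {a b : V} (e : G.Adj a b)
    (h : Inv G (m + 1)) : Inv (quot G (pairSetoid a b)) m := by
  obtain ⟨h, hl, s0, s1⟩ := h
  have e1 := hl a b e
  have e2 := hl b a e.symm
  let g : V → ℕ := fun x => if h x ≤ min (h a) (h b) then h x else h x - 1
  have wd : ∀ x y, (pairSetoid a b) x y → g x = g y := by
    rintro x y (rfl | ⟨rfl | rfl, rfl | rfl⟩) <;> simp only [g] <;> split_ifs <;> omega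
  refine ⟨Quotient.lift g wd, ?_, star_step e.ne ?_ s0, star_step e.ne ?_ s1⟩
  · rintro _ _ ⟨_, u, v, rfl, rfl, huv⟩
    have := hl u v huv
    show g u ≤ g v + 1
    simp only [g]; split_ifs <;> omega
  · intro x hx
    show g x = 0
    simp only [g]; split_ifs <;> omega
  · intro x hx
    show m + 1 ≤ g x
    simp only [g]; split_ifs <;> omega

theorem star_hit {V : Type} {G : SimpleGraph V} {P : V → Prop} {m : ℕ} (h : Star G P m)
    {S : Set V} {φ : V → ℕ} (hi : Set.InjOn φ Sᶜ)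
    (hb : ∀ u v w, u ∉ S → v ∉ S → w ∉ S → G.Adj u v → ¬ (φ u < φ w ∧ φ w < φ v)) :
    ∃ s ∈ S, P s := by
  by_contra hn
  push Not at hn
  obtain ⟨c, A, hc, hA, hx⟩ := h
  obtain ⟨x, hx1, y, hy1, z, hz1, hxy, hxz, hyz⟩ := Finset.two_lt_card.1 (show 2 < A.card by omega)
  have nc : c ∉ S := fun h => hn c h hc
  have nA : ∀ x ∈ A, x ∉ S := fun x h h' => hn x h' (hx x h).1
  have d : ∀ u ∈ A, φ c ≠ φ u := fun u hu e => (hx u hu).2.ne (hi nc (nA u hu) e)
  have d2 : ∀ u ∈ A, ∀ v ∈ A, u ≠ v → φ u ≠ φ v := fun u hu v hv h e => h (hi (nA u hu) (nA v hv) e)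
  have f1 : ∀ u ∈ A, ∀ w ∈ A, ¬ (φ c < φ w ∧ φ w < φ u) := fun u hu w hw =>
    hb c u w nc (nA u hu) (nA w hw) (hx u hu).2
  have f2 : ∀ u ∈ A, ∀ w ∈ A, ¬ (φ u < φ w ∧ φ w < φ c) := fun u hu w hw =>
    hb u c w (nA u hu) nc (nA w hw) (hx u hu).2.symm
  have := d x hx1; have := d y hy1; have := d z hz1
  have := d2 x hx1 y hy1 hxy; have := d2 x hx1 z hz1 hxz; have := d2 y hy1 z hz1 hyz
  have := f1 x hx1 y hy1; have := f1 y hy1 x hx1; have := f1 x hx1 z hz1
  have := f1 z hz1 x hx1; have := f1 y hy1 z hz1; have := f1 z hz1 y hy1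
  have := f2 x hx1 y hy1; have := f2 y hy1 x hx1; have := f2 x hx1 z hz1
  have := f2 z hz1 x hx1; have := f2 y hy1 z hz1; have := f2 z hz1 y hy1
  omega

theorem lower : ∀ (k m : ℕ) (V : Type) (G : SimpleGraph V), Inv G m → Contr Cl k V G → m < k
  | 0, m, V, G, ⟨h, _, s0, s1⟩, ⟨S, φ, hS, hi, hb⟩ => by
    obtain ⟨s, hs, p0⟩ := star_hit s0 hi hb
    obtain ⟨t, ht, p1⟩ := star_hit s1 hi hb
    rw [hS ht hs] at p1
    omega
  | k + 1, 0, _, _, _, _ => by omega
  | k + 1, m + 1, _, _, h, ⟨_, _, e, hc⟩ => by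
    have := lower k m _ _ (inv_step e h) hc
    omega

/-- vertices `0..m+1` form a path, `m+2..2m+4` are leaves at `0`, the rest are leaves at `m+1` -/
def Gm (m : ℕ) : SimpleGraph (Fin (3 * m + 8)) :=
  SimpleGraph.fromRel fun u v => (v.val = u.val + 1 ∧ v.val ≤ m + 1) ∨
    (u.val = 0 ∧ m + 2 ≤ v.val ∧ v.val ≤ 2 * m + 4) ∨ (u.val = m + 1 ∧ 2 * m + 5 ≤ v.val)

theorem conn (m : ℕ) : (Gm m).Connected := by
  have p : ∀ (i : ℕ) (hi : i ≤ m + 1), (Gm m).Reachable ⟨0, by omega⟩ ⟨i, by omega⟩ := by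
    intro i
    induction i with
    | zero => intro _; rfl
    | succ i ih =>
      intro hi
      refine (ih (by omega)).trans (Adj.reachable ?_)
      simp only [Gm, fromRel_adj, ne_eq, Fin.ext_iff, true_and]; omega
  have q : ∀ v, (Gm m).Reachable ⟨0, by omega⟩ v := by
    intro v
    by_cases h1 : v.val ≤ m + 1
    · exact p v.val h1
    · by_cases h2 : v.val ≤ 2 * m + 4
      · refine Adj.reachable ?_
        simp only [Gm, fromRel_adj, ne_eq, Fin.ext_iff, true_and]; omega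
      · refine (p (m + 1) le_rfl).trans (Adj.reachable ?_)
        simp only [Gm, fromRel_adj, ne_eq, Fin.ext_iff, true_and]; omega
  exact (connected_iff_exists_forall_reachable _).2 ⟨_, q⟩

theorem star_m (m lo : ℕ) (c : Fin (3 * m + 8)) (hlo : lo + (m + 3) ≤ 3 * m + 8)
    (P : Fin (3 * m + 8) → Prop) (hc : P c)
    (h : ∀ x : Fin (3 * m + 8), lo ≤ x.val → x.val < lo + (m + 3) → P x ∧ (Gm m).Adj c x) :
    Star (Gm m) P m := by
  refine ⟨c, Finset.univ.image fun t : Fin (m + 3) => ⟨lo + t.val, by omega⟩, hc, ?_, ?_⟩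
  · rw [Finset.card_image_of_injective _ fun s t e => Fin.ext (by simpa using e)]
    simp
  · intro x hx
    obtain ⟨t, _, rfl⟩ := Finset.mem_image.1 hx
    exact h _ (by simp) (by simp)

theorem inv_m (m : ℕ) : Inv (Gm m) m := by
  refine ⟨fun v => if v.val ≤ m + 1 then v.val else if v.val ≤ 2 * m + 4 then 0 else m + 1, ?_,
    star_m m (m + 2) ⟨0, by omega⟩ (by omega) _ (by simp) ?_,
    star_m m (2 * m + 5) ⟨m + 1, by omega⟩ (by omega) _ (by simp) ?_⟩
  · intro u v e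
    simp only [Gm, fromRel_adj, ne_eq, Fin.ext_iff] at e
    dsimp only
    split_ifs <;> omega
  · intro x h1 h2
    simp only [Gm, fromRel_adj, ne_eq, Fin.ext_iff, true_and]
    split_ifs <;> omega
  · intro x h1 h2
    simp only [Gm, fromRel_adj, ne_eq, Fin.ext_iff, true_and]
    split_ifs <;> omega

theorem ident_m (m : ℕ) : Ident Cl (Gm m) 2 := by
  let a : Fin (3 * m + 8) := ⟨0, by omega⟩
  let b : Fin (3 * m + 8) := ⟨m + 1, by omega⟩
  refine ⟨{a, b}, pairSetoid a b, Finset.card_le_two, ?_,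
    {Quotient.mk _ a}, fun x => x.out.val, Set.subsingleton_singleton, ?_, ?_⟩
  · rintro u v (h | h)
    · exact Or.inl h
    · exact Or.inr (by simpa using h)
  · intro x _ y _ e
    rw [← x.out_eq, ← y.out_eq, Fin.ext e]
  · have key : ∀ u, Quotient.mk (pairSetoid a b) u ∉ ({Quotient.mk _ a} : Set _) →
        (Quotient.mk (pairSetoid a b) u).out = u ∧ u.val ≠ 0 ∧ u.val ≠ m + 1 := by
      intro u hu
      have h1 : ¬ (u = a ∨ u = b) := fun h => hu (Quotient.sound (Or.inr ⟨h, Or.inl rfl⟩))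
      refine ⟨?_, fun h => h1 (Or.inl (Fin.ext h)), fun h => h1 (Or.inr (Fin.ext h))⟩
      rcases Quotient.exact (Quotient.mk (pairSetoid a b) u).out_eq with e | e
      · exact e
      · exact absurd e.2 h1
    rintro _ _ w hu hv _ ⟨_, u, v, rfl, rfl, e⟩
    obtain ⟨u1, u2, u3⟩ := key u hu
    obtain ⟨v1, v2, v3⟩ := key v hv
    simp only [Gm, fromRel_adj, ne_eq, Fin.ext_iff] at e
    simp only [u1, v1]
    omega

theorem result : ∃ C : ∀ V : Type, SimpleGraph V → Prop, MinorClosed C ∧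
    ∀ m : ℕ, ∃ (n : ℕ) (G : SimpleGraph (Fin n)), G.Connected ∧ Ident C G 2 ∧
      (∃ k, Contr C k _ G) ∧ ∀ k, Contr C k _ G → m < k :=
  ⟨Cl, closed, fun m => ⟨_, Gm m, conn m, ident_m m, reach _ _ _ le_rfl,
    fun k h => lower k m _ _ (inv_m m) h⟩⟩

end Pool.Agent.Results.MP_4c2ece_co.Unbounded
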